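import Mathlib
set_option autoImplicit false
namespace Pool.Agent.TH646.C8_FIL

/-- the valuation theoretic core, in the coordinates `z = x / y`, `w = 1 / y` -/
theorem core {L Γ : Type*} [Field L] [LinearOrderedCommGroupWithZero Γ] (v : Valuation L Γ)
    {z1 z2 w1 w2 lam nu : L} {a : Γ} (ha : a < 1)
    (h1 : w1 = z1 ^ 3 + w1 ^ 3) (h2 : w2 = z2 ^ 3 + w2 ^ 3) (hz : z1 ≠ z2)
    (hw1 : v w1 ≤ a) (hw2 : v w2 ≤ a)
    (l1 : w1 = lam * z1 + nu) (l2 : w2 = lam * z2 + nu) :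
    v (1 + lam ^ 3) = 1 ∧ ∀ zT wT : L, wT = lam * zT + nu →
      (1 + lam ^ 3) * (z1 + z2 + zT) + 3 * lam ^ 2 * nu = 0 → v wT ≤ a := by
  have lt1 : ∀ w : L, v w ≤ a → v w < 1 := fun w h => h.trans_lt ha
  have h3 : v (3 : L) ≤ 1 := by
    have : (3 : L) = 1 + 1 + 1 := by norm_num
    rw [this]
    refine (v.map_add _ _).trans (max_le ((v.map_add _ _).trans (max_le ?_ ?_)) ?_) <;> simp
  have cube : ∀ z w : L, w = z ^ 3 + w ^ 3 → v w ≤ a → v z ^ 3 = v w := by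
    intro z w h hw
    have e : z ^ 3 = w * (1 - w ^ 2) := by linear_combination -h
    have hu : v (1 - w ^ 2) = 1 := by
      apply Valuation.map_one_sub_of_lt
      rw [map_pow]
      exact pow_lt_one₀ zero_le (lt1 w hw) (by norm_num)
    rw [← map_pow, e, map_mul, hu, mul_one]
  have c1 := cube z1 w1 h1 hw1
  have c2 := cube z2 w2 h2 hw2
  obtain ⟨M, hM⟩ : ∃ M, M = max (v z1) (v z2) := ⟨_, rfl⟩
  have hz1 : v z1 ≤ M := hM ▸ le_max_left _ _
  have hz2 : v z2 ≤ M := hM ▸ le_max_right _ _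
  have hM3 : M ^ 3 ≤ a := by
    rcases max_choice (v z1) (v z2) with h | h
    · rw [hM, h, c1]; exact hw1
    · rw [hM, h, c2]; exact hw2
  have hM1 : M < 1 := by
    by_contra h
    rw [not_lt] at h
    exact absurd ((one_le_pow₀ h).trans hM3) (not_le.mpr ha)
  have hw1' : v w1 ≤ M ^ 3 := by rw [← c1]; exact pow_le_pow_left₀ zero_le hz1 3
  have hw2' : v w2 ≤ M ^ 3 := by rw [← c2]; exact pow_le_pow_left₀ zero_le hz2 3
  have hM3' : M ^ 3 < 1 := hM3.trans_lt ha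
  -- the unit `1 - (w1² + w1 w2 + w2²)`
  have hS : v (w1 ^ 2 + w1 * w2 + w2 ^ 2) < 1 := by
    have k1 : v w1 < 1 := lt1 _ hw1
    have k2 : v w2 < 1 := lt1 _ hw2
    have : ∀ s t : L, v s < 1 → v t < 1 → v (s * t) < 1 := by
      intro s t hs ht
      rw [map_mul]
      exact mul_lt_one_of_nonneg_of_lt_one_left zero_le hs ht.le
    apply v.map_add_lt (v.map_add_lt _ (this _ _ k1 k2)) _
    · rw [pow_two]; exact this _ _ k1 k1
    · rw [pow_two]; exact this _ _ k2 k2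
  have hU : v (1 - (w1 ^ 2 + w1 * w2 + w2 ^ 2)) = 1 := v.map_one_sub_of_lt hS
  have hlam : v lam ≤ M ^ 2 := by
    have e : lam * (1 - (w1 ^ 2 + w1 * w2 + w2 ^ 2)) = z1 ^ 2 + z1 * z2 + z2 ^ 2 := by
      apply mul_left_cancel₀ (sub_ne_zero.mpr hz)
      have e1 : w1 - w2 = lam * (z1 - z2) := by rw [l1, l2]; ring
      linear_combination h1 - h2 - (1 - (w1 ^ 2 + w1 * w2 + w2 ^ 2)) * e1
    have e' := congrArg v e
    rw [map_mul, hU, mul_one] at e'
    rw [e']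
    have q : ∀ s t : L, v s ≤ M → v t ≤ M → v (s * t) ≤ M ^ 2 := by
      intro s t hs ht
      rw [map_mul, pow_two]
      exact mul_le_mul' hs ht
    apply v.map_add_le (v.map_add_le _ (q _ _ hz1 hz2)) _
    · rw [pow_two]; exact q _ _ hz1 hz1
    · rw [pow_two]; exact q _ _ hz2 hz2
  have hnu : v nu ≤ M ^ 3 := by
    have e : nu = w1 - lam * z1 := by rw [l1]; ring
    rw [e]
    apply v.map_sub_le hw1'
    rw [map_mul, pow_succ]
    exact mul_le_mul' hlam hz1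
  have hlam1 : v (lam ^ 3) < 1 := by
    rw [map_pow]
    apply pow_lt_one₀ zero_le (hlam.trans_lt (pow_lt_one₀ zero_le hM1 (by norm_num)))
    norm_num
  have hD : v (1 + lam ^ 3) = 1 := v.map_one_add_of_lt hlam1
  refine ⟨hD, fun zT wT l3 hT => ?_⟩
  have hzT : v zT ≤ M := by
    have e : (1 + lam ^ 3) * zT = -((1 + lam ^ 3) * (z1 + z2) + 3 * lam ^ 2 * nu) := by
      linear_combination hT
    have e' := congrArg v e
    rw [map_mul, hD, one_mul, Valuation.map_neg] at e'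
    rw [e']
    apply v.map_add_le
    · rw [map_mul, hD, one_mul]
      exact v.map_add_le hz1 hz2
    · rw [map_mul, map_mul, map_pow]
      have k1 : v lam ^ 2 ≤ 1 := pow_le_one₀ zero_le (hlam.trans (pow_le_one₀ zero_le hM1.le))
      have k2 : M ^ 3 ≤ M := by
        calc M ^ 3 ≤ M ^ 1 := pow_le_pow_of_le_one zero_le hM1.le (by norm_num)
          _ = M := pow_one M
      calc v 3 * v lam ^ 2 * v nu ≤ 1 * 1 * M := mul_le_mul' (mul_le_mul' h3 k1) (hnu.trans k2)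
        _ = M := by simp
  rw [l3]
  apply v.map_add_le _ (hnu.trans hM3)
  rw [map_mul]
  calc v lam * v zT ≤ M ^ 2 * M := mul_le_mul' hlam hzT
    _ = M ^ 3 := (pow_succ M 2).symm
    _ ≤ a := hM3

/-- The points of `y^2 = x^3 + 1` close to the origin form a subgroup. -/
theorem filtration {L : Type} [Field L] (V : ValuationSubring L) {c : L} (hc0 : c ≠ 0)
    (hc : c ∈ V) (hc' : c⁻¹ ∉ V) {x1 y1 x2 y2 x3 y3 : L}
    (h1 : y1 ^ 2 = x1 ^ 3 + 1) (h2 : y2 ^ 2 = x2 ^ 3 + 1) (hne : x1 ≠ x2)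
    (hx3 : x3 = ((y1 - y2) / (x1 - x2)) ^ 2 - x1 - x2)
    (hy3 : y3 = -(((y1 - y2) / (x1 - x2)) * (x3 - x1) + y1))
    (h10 : y1 ≠ 0) (h20 : y2 ≠ 0) (h1c : y1⁻¹ * c⁻¹ ∈ V) (h2c : y2⁻¹ * c⁻¹ ∈ V) :
    y3 ≠ 0 ∧ y3⁻¹ * c⁻¹ ∈ V := by
  have hd : x1 - x2 ≠ 0 := sub_ne_zero.mpr hne
  obtain ⟨l, hl⟩ : ∃ l, l = (y1 - y2) / (x1 - x2) := ⟨_, rfl⟩
  rw [← hl] at hx3 hy3
  have hl' : l * (x1 - x2) = y1 - y2 := by rw [hl]; field_simp
  obtain ⟨m, hm⟩ : ∃ m, m = y1 - l * x1 := ⟨_, rfl⟩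
  have e1 : x3 = l ^ 2 - x1 - x2 := hx3
  have Y1 : y1 = l * x1 + m := by rw [hm]; ring
  have Y2 : y2 = l * x2 + m := by linear_combination hl' - hm
  obtain ⟨yT, hyT⟩ : ∃ yT, yT = l * x3 + m := ⟨_, rfl⟩
  have hy3' : y3 = -yT := by rw [hy3, hyT, hm]; ring
  have e1' : x1 + x2 + x3 = l ^ 2 := by rw [e1]; ring
  have e2 : x1 * x2 + x1 * x3 + x2 * x3 = -2 * l * m := by
    apply mul_left_cancel₀ hd
    rw [Y1] at h1
    rw [Y2] at h2
    rw [e1]
    linear_combination h1 - h2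
  have e3 : x1 * x2 * x3 = m ^ 2 - 1 := by
    rw [Y1] at h1
    have : x1 * (x1 * x2 + x1 * x3 + x2 * x3) = x1 * (-2 * l * m) := by rw [e2]
    rw [e1] at this ⊢
    linear_combination this - h1
  have hprod : y1 * y2 * yT = m ^ 3 - l ^ 3 := by
    rw [Y1, Y2, hyT]
    linear_combination l ^ 3 * e3 + l ^ 2 * m * e2 + l * m ^ 2 * e1'
  have hsum : x1 * (y2 * yT) + x2 * (y1 * yT) + x3 * (y1 * y2) = -3 * l ^ 2 := by
    rw [Y1, Y2, hyT]
    linear_combination 3 * l ^ 2 * e3 + 2 * l * m * e2 + m ^ 2 * e1'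
  -- valuation
  have hvc0 : V.valuation c ≠ 0 := (Valuation.ne_zero_iff _).mpr hc0
  have hvc1 : V.valuation c < 1 := by
    have h := hc'
    rw [← V.valuation_le_one_iff, map_inv₀, not_le] at h
    exact (one_lt_inv₀ (zero_lt_iff.mpr hvc0)).mp h
  have key : ∀ y : L, y⁻¹ * c⁻¹ ∈ V ↔ V.valuation y⁻¹ ≤ V.valuation c := by
    intro y
    rw [← V.valuation_le_one_iff, map_mul, map_inv₀ V.valuation c, ← div_eq_mul_inv,
      div_le_one₀ (zero_lt_iff.mpr hvc0)]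
  have k1 := (key y1).mp h1c
  have k2 := (key y2).mp h2c
  obtain ⟨z1, hz1⟩ : ∃ z1, z1 = x1 / y1 := ⟨_, rfl⟩
  obtain ⟨z2, hz2⟩ : ∃ z2, z2 = x2 / y2 := ⟨_, rfl⟩
  have q1 : y1⁻¹ = z1 ^ 3 + y1⁻¹ ^ 3 := by
    rw [hz1]; field_simp; linear_combination h1
  have q2 : y2⁻¹ = z2 ^ 3 + y2⁻¹ ^ 3 := by
    rw [hz2]; field_simp; linear_combination h2
  have hz : z1 ≠ z2 := by
    intro h
    have f : (y1⁻¹ - y2⁻¹) * (1 - (y1⁻¹ ^ 2 + y1⁻¹ * y2⁻¹ + y2⁻¹ ^ 2)) = 0 := by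
      rw [← h] at q2
      linear_combination q1 - q2
    have hS : V.valuation (y1⁻¹ ^ 2 + y1⁻¹ * y2⁻¹ + y2⁻¹ ^ 2) < 1 := by
      have g1 : V.valuation y1⁻¹ < 1 := k1.trans_lt hvc1
      have g2 : V.valuation y2⁻¹ < 1 := k2.trans_lt hvc1
      have : ∀ s t : L, V.valuation s < 1 → V.valuation t < 1 → V.valuation (s * t) < 1 := by
        intro s t hs ht
        rw [map_mul]
        exact mul_lt_one_of_nonneg_of_lt_one_left zero_le hs ht.le
      apply V.valuation.map_add_lt (V.valuation.map_add_lt _ (this _ _ g1 g2)) _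
      · rw [pow_two]; exact this _ _ g1 g1
      · rw [pow_two]; exact this _ _ g2 g2
    have hU := V.valuation.map_one_sub_of_lt hS
    have hU0 : (1 - (y1⁻¹ ^ 2 + y1⁻¹ * y2⁻¹ + y2⁻¹ ^ 2)) ≠ 0 := by
      intro h0
      rw [h0, map_zero] at hU
      exact zero_ne_one hU
    have hw : y1⁻¹ = y2⁻¹ := by
      have := (mul_eq_zero.mp f).resolve_right hU0
      exact sub_eq_zero.mp this
    have hy : y1 = y2 := inv_injective hw
    apply hne
    rw [hz1, hz2, ← hy] at h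
    field_simp at h
    exact h
  have hm0 : m ≠ 0 := by
    intro h0
    rw [h0, add_zero] at Y1 Y2
    have hl0 : l ≠ 0 := by
      rintro rfl
      exact h10 (by rw [Y1]; ring)
    have hx10 : x1 ≠ 0 := by
      rintro rfl
      exact h10 (by rw [Y1]; ring)
    have hx20 : x2 ≠ 0 := by
      rintro rfl
      exact h20 (by rw [Y2]; ring)
    apply hz
    rw [hz1, hz2, Y1, Y2]
    field_simp
  obtain ⟨hD, hcore⟩ := core V.valuation (lam := -l / m) (nu := 1 / m) hvc1 q1 q2 hz k1 k2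
    (by rw [hz1]; field_simp; rw [Y1]; ring) (by rw [hz2]; field_simp; rw [Y2]; ring)
  have hD0 : 1 + (-l / m) ^ 3 ≠ 0 := by
    intro h0
    rw [h0, map_zero] at hD
    exact zero_ne_one hD
  have hml : m ^ 3 - l ^ 3 ≠ 0 := by
    intro h0
    apply hD0
    field_simp
    linear_combination h0
  have hT0 : yT ≠ 0 := by
    rintro h0
    rw [h0, mul_zero] at hprod
    exact hml hprod.symm
  refine ⟨by rw [hy3']; exact neg_ne_zero.mpr hT0, ?_⟩
  rw [key, hy3', inv_neg, Valuation.map_neg]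
  refine hcore (x3 / yT) yT⁻¹ (by field_simp; rw [hyT]; ring) ?_
  have f : (m ^ 3 - l ^ 3) * (z1 + z2 + x3 / yT) + 3 * l ^ 2 = 0 := by
    rw [← hprod, hz1, hz2]
    field_simp
    linear_combination hsum
  have g : (1 + (-l / m) ^ 3) * (z1 + z2 + x3 / yT) + 3 * (-l / m) ^ 2 * (1 / m)
      = ((m ^ 3 - l ^ 3) * (z1 + z2 + x3 / yT) + 3 * l ^ 2) / m ^ 3 := by
    field_simp
    ring
  rw [g, f, zero_div]

end Pool.Agent.TH646.C8_FIL
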