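import Pool.Agent.Helper158.Stall.Grp

/-!
The subgroup `S = ⟨b, c, w⟩` of the free group `F = ⟨b, c, t⟩`, `w = t t b t⁻¹ c`, and the Kervaire
extension `S → (S * ⟨t⟩) / ⟨⟨w⁻¹ t t b t⁻¹ c⟩⟩`.
-/

set_option autoImplicit false

namespace Pool.Agent.TH646.Kerv

open Pool.Agent.Helper158.Stall

/-- the group `S` -/
abbrev SS : Type := S

def bS : SS := ⟨FreeGroup.of 0, b_mem⟩
def cS : SS := ⟨FreeGroup.of 1, c_mem⟩
def wS : SS := ⟨FreeGroup.mk W, w_mem⟩

/-- the free product -/
abbrev K : Type := Monoid.Coprod SS (FreeGroup (Fin 1))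

/-- the new variable -/
def tK : K := Monoid.Coprod.inr (FreeGroup.of 0)

/-- the word of the system -/
def rel : K := (Monoid.Coprod.inl wS)⁻¹ * (tK * tK * Monoid.Coprod.inl bS * tK⁻¹ *
  Monoid.Coprod.inl cS)

def w : Fin 1 → K := fun _ => rel

theorem det_ne : (Matrix.of (fun i j : Fin 1 => Multiplicative.toAdd
        (Monoid.Coprod.lift (1 : SS →* Multiplicative ℤ)
          (FreeGroup.lift (fun k : Fin 1 =>
            if k = i then Multiplicative.ofAdd (1 : ℤ) else 1)) (w j)))).det ≠ 0 := by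
  rw [Matrix.det_fin_one]
  simp [w, rel, tK]

/-- the quotient -/
abbrev HH : Type := K ⧸ Subgroup.normalClosure (Set.range w)

/-- the quotient map -/
def q : K →* HH := QuotientGroup.mk' (Subgroup.normalClosure (Set.range w))

theorem q_rel : q rel = 1 := by
  have h : rel ∈ Subgroup.normalClosure (Set.range w) :=
    Subgroup.subset_normalClosure ⟨0, rfl⟩
  exact (QuotientGroup.eq_one_iff _).2 h

theorem q_w : q (Monoid.Coprod.inl wS) =
    q tK * q tK * q (Monoid.Coprod.inl bS) * (q tK)⁻¹ * q (Monoid.Coprod.inl cS) := by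
  have h := q_rel
  rw [rel, map_mul, map_inv, inv_mul_eq_one] at h
  rw [h]
  simp only [map_mul, map_inv]

/-- the map from the free group -/
def φ : FreeGroup (Fin 3) →* HH :=
  FreeGroup.lift ![q (Monoid.Coprod.inl bS), q (Monoid.Coprod.inl cS), q tK]

theorem φ_W : φ (FreeGroup.mk W) = q (Monoid.Coprod.inl wS) := by
  rw [W_eq, q_w]
  simp only [map_mul, map_inv, φ, FreeGroup.lift_apply_of, Matrix.cons_val_zero,
    Matrix.cons_val_one, Matrix.cons_val]

theorem φ_eq (s : FreeGroup (Fin 3)) (hs : s ∈ S) :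
    φ s = q (Monoid.Coprod.inl (⟨s, hs⟩ : SS)) := by
  refine Subgroup.closure_induction (p := fun s hs => φ s =
      q (Monoid.Coprod.inl (⟨s, hs⟩ : SS))) ?_ ?_ ?_ ?_ hs
  · intro x hx
    simp only [Set.mem_insert_iff, Set.mem_singleton_iff] at hx
    rcases hx with rfl | rfl | rfl
    · simp [φ, bS]
    · simp [φ, cS]
    · exact φ_W
  · rw [map_one]
    symm
    have : (⟨1, S.one_mem⟩ : SS) = 1 := rfl
    rw [this, map_one, map_one]
  · intro x y hx hy h1 h2
    rw [map_mul, h1, h2, ← map_mul, ← map_mul]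
    rfl
  · intro x hx h1
    rw [map_inv, h1, ← map_inv, ← map_inv]
    rfl

/-- the element `a` -/
def aS : SS := ⟨FreeGroup.mk (emb aw), emb_mem _⟩

/-- the elements `g_i` -/
def gS (i : Fin data.length) : SS := ⟨FreeGroup.mk (item (data.get i).1), item_mem _⟩

/-- the elements -/
def g : Fin (data.length + 1) → SS := Fin.cons aS⁻¹ gS

theorem hofn {β : Type} (f : ((Option (Fin 2 × Bool) × Bool) × List (Fin 3 × Bool)) → β) :
    List.ofFn (fun i : Fin data.length => f (data.get i)) = data.map f := by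
  conv_rhs => rw [← List.ofFn_get data]
  rw [List.map_ofFn]
  rfl

theorem prod_H : (List.ofFn fun i : Fin data.length => φ (FreeGroup.mk (data.get i).2) *
      q (Monoid.Coprod.inl (gS i)) * (φ (FreeGroup.mk (data.get i).2))⁻¹).prod =
      q (Monoid.Coprod.inl aS) := by
  have e : (fun i : Fin data.length => φ (FreeGroup.mk (data.get i).2) *
      q (Monoid.Coprod.inl (gS i)) * (φ (FreeGroup.mk (data.get i).2))⁻¹) =
      fun i => (⇑φ ∘ fun p => FreeGroup.mk p.2 * FreeGroup.mk (item p.1) *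
        (FreeGroup.mk p.2)⁻¹) (data.get i) := by
    funext i
    simp only [Function.comp, map_mul, map_inv]
    rw [φ_eq _ (item_mem (data.get i).1)]
    rfl
  rw [e, hofn, ← List.map_map, ← map_list_prod, ← identity]
  exact φ_eq _ (emb_mem aw)

theorem in_H : ∃ h : Fin (data.length + 1) → HH,
    (List.ofFn (fun i => h i * QuotientGroup.mk' (Subgroup.normalClosure (Set.range w))
      (Monoid.Coprod.inl (g i)) * (h i)⁻¹)).prod = 1 := by
  refine ⟨Fin.cons 1 (fun i => φ (FreeGroup.mk (data.get i).2)), ?_⟩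
  rw [List.ofFn_succ, List.prod_cons]
  simp only [Fin.cons_zero, Fin.cons_succ, g]
  have h := prod_H
  generalize hX : (List.ofFn fun i : Fin data.length => φ (FreeGroup.mk (data.get i).2) *
      q (Monoid.Coprod.inl (gS i)) * (φ (FreeGroup.mk (data.get i).2))⁻¹).prod = X at h
  refine (congrArg (fun Y => 1 * q (Monoid.Coprod.inl aS⁻¹) * (1 : HH)⁻¹ * Y) hX).trans ?_
  simp only [h]
  rw [map_inv, map_inv, one_mul, inv_one, mul_one, inv_mul_cancel]

theorem no_lift (h : ∃ x : Fin (data.length + 1) → SS,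
    (List.ofFn (fun i => x i * g i * (x i)⁻¹)).prod = 1) : False := by
  obtain ⟨x, hx⟩ := h
  rw [List.ofFn_succ, List.prod_cons] at hx
  simp only [Fin.cons_zero, Fin.cons_succ, g] at hx
  have h1 : (List.ofFn fun i : Fin data.length => x i.succ * gS i * (x i.succ)⁻¹).prod =
      x 0 * aS * (x 0)⁻¹ := by
    have h2 := eq_inv_of_mul_eq_one_right hx
    rw [h2]
    group
  have h3 : (List.ofFn fun i : Fin data.length => ((x 0)⁻¹ * x i.succ) * gS i *
      ((x 0)⁻¹ * x i.succ)⁻¹).prod = aS := by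
    have h4 := congrArg (MulAut.conj (x 0)⁻¹) h1
    rw [map_list_prod, List.map_ofFn] at h4
    have h5 : MulAut.conj (x 0)⁻¹ (x 0 * aS * (x 0)⁻¹) = aS := by
      rw [MulAut.conj_apply]
      group
    rw [h5] at h4
    rw [← h4]
    congr 2
    funext i
    simp only [Function.comp, MulAut.conj_apply]
    group
  refine no_conj (List.ofFn (fun i : Fin data.length =>
    ((((x 0)⁻¹ * x i.succ : SS) : FreeGroup (Fin 3)), (data.get i).1))) ?_ ?_ ?_
  · intro p hp
    obtain ⟨i, rfl⟩ := (List.mem_ofFn' _ _).1 hp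
    exact ((x 0)⁻¹ * x i.succ : SS).2
  · rw [List.map_ofFn]
    exact hofn Prod.fst
  · rw [List.map_ofFn]
    have h6 := congrArg S.subtype h3
    rw [map_list_prod, List.map_ofFn] at h6
    exact h6.symm

end Pool.Agent.TH646.Kerv
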